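import Mathlib

/-!
# Superlinear near-integer-distance-avoiding sets for general norms

For every `k` there are a dimension `d`, a `δ ∈ (0, 1/2)` and a norm on `ℝ^d` such that
`N(X, δ) / X^k → ∞`.  For `k = 1` this answers the question.

Construction: the norm is `√(‖a‖_∞² + |b|²)` on `ℝ^(k+1) × ℂ^(6(k+1))`, the points are
`(a, λ Φ(a))` with `a ∈ {0, …, n-1}^(k+1)`, where `Φ` is a snowflake map,
`|Φ(a) - Φ(a')|² ≍ ‖a - a'‖_∞`.  Then the norm of a difference exceeds the integer `‖a - a'‖_∞` by an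
amount in `[δ, 1/2]`.
-/

set_option autoImplicit false

namespace Pool.Agent.Results.MP_af7c6a_co.Superlinear

open Finset Filter Complex

/-- `N 𝒩 X δ` is the largest `n` for which there are points `p_1, …, p_n` in a closed `𝒩`-ball of
radius `X` such that for `i ≠ j` the distance from `𝒩 (p_i - p_j)` to the nearest integer is at
least `δ`. -/
noncomputable def N {d : ℕ} (𝒩 : Seminorm ℝ (Fin d → ℝ)) (X δ : ℝ) : ℕ :=
  sSup {n : ℕ | ∃ (c : Fin d → ℝ) (p : Fin n → (Fin d → ℝ)), (∀ i, 𝒩 (p i - c) ≤ X) ∧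
    ∀ i j, i ≠ j → δ ≤ |𝒩 (p i - p j) - round (𝒩 (p i - p j))|}

/-! ### The snowflake map of the integers -/

/-- the wave of scale `4^(l+1)` and amplitude `2^l` -/
noncomputable def w (l : ℕ) (t : ℝ) : ℂ := 2 ^ l * exp (I * ((Real.pi * t / 4 ^ (l + 1) : ℝ) : ℂ))

theorem w_sub (l : ℕ) (s t : ℝ) : ‖w l s - w l t‖ =
    2 ^ l * ‖exp (I * ((Real.pi * (s - t) / 4 ^ (l + 1) : ℝ) : ℂ)) - 1‖ := by
  have h : w l s - w l t = 2 ^ l * (exp (I * ((Real.pi * t / 4 ^ (l + 1) : ℝ) : ℂ)) *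
      (exp (I * ((Real.pi * (s - t) / 4 ^ (l + 1) : ℝ) : ℂ)) - 1)) := by
    unfold w
    rw [mul_sub, ← exp_add, mul_one, mul_sub]
    congr 3
    rw [← mul_add]
    congr 1
    push_cast
    ring
  rw [h, norm_mul, norm_mul, mul_comm I, Complex.norm_exp_ofReal_mul_I, one_mul]
  simp

theorem w_le_two (l : ℕ) (s t : ℝ) : ‖w l s - w l t‖ ≤ 2 * 2 ^ l := by
  rw [w_sub, mul_comm (2 : ℝ)]
  apply mul_le_mul_of_nonneg_left _ (by positivity)
  calc _ ≤ ‖exp (I * ((Real.pi * (s - t) / 4 ^ (l + 1) : ℝ) : ℂ))‖ + ‖(1 : ℂ)‖ := norm_sub_le _ _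
    _ = 2 := by rw [mul_comm I, Complex.norm_exp_ofReal_mul_I]; norm_num

theorem w_le_lin (l : ℕ) (s t : ℝ) : ‖w l s - w l t‖ ≤ Real.pi * |s - t| / 4 * (1 / 2) ^ l := by
  rw [w_sub]
  have h := Real.norm_exp_I_mul_ofReal_sub_one_le (x := Real.pi * (s - t) / 4 ^ (l + 1))
  have h2 : ‖Real.pi * (s - t) / 4 ^ (l + 1)‖ = Real.pi * |s - t| / 4 ^ (l + 1) := by
    rw [Real.norm_eq_abs, abs_div, abs_mul, abs_of_pos Real.pi_pos, abs_of_pos (by positivity :
      (0 : ℝ) < 4 ^ (l + 1))]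
  rw [h2] at h
  calc _ ≤ 2 ^ l * (Real.pi * |s - t| / 4 ^ (l + 1)) := mul_le_mul_of_nonneg_left h (by positivity)
    _ = Real.pi * |s - t| / 4 * (1 / 2) ^ l := by
      rw [pow_succ, show (4 : ℝ) ^ l = 2 ^ l * 2 ^ l by rw [← mul_pow]; norm_num, one_div, inv_pow]
      field_simp

theorem le_w (l : ℕ) (s t : ℝ) (h1 : 4 ^ l ≤ |s - t|) (h2 : |s - t| < 4 ^ (l + 1)) :
    2 ^ l / 2 ≤ ‖w l s - w l t‖ := by
  rw [w_sub, Complex.norm_exp_I_mul_ofReal_sub_one]
  have h4 : (0 : ℝ) < 4 ^ (l + 1) := by positivity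
  have hpi := Real.pi_pos
  have e1 : ‖2 * Real.sin (Real.pi * (s - t) / 4 ^ (l + 1) / 2)‖ =
      2 * Real.sin (Real.pi * |s - t| / 4 ^ (l + 1) / 2) := by
    have hnn : 0 ≤ Real.sin (Real.pi * |s - t| / 4 ^ (l + 1) / 2) := by
      apply Real.sin_nonneg_of_nonneg_of_le_pi (by positivity)
      have : Real.pi * |s - t| / 4 ^ (l + 1) ≤ Real.pi := by
        rw [div_le_iff₀ h4]; exact mul_le_mul_of_nonneg_left h2.le hpi.le
      linarith
    rcases le_total 0 (s - t) with h | h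
    · rw [abs_of_nonneg h] at hnn ⊢
      rw [Real.norm_of_nonneg (by positivity)]
    · rw [abs_of_nonpos h] at hnn ⊢
      rw [show Real.pi * (s - t) / 4 ^ (l + 1) / 2 = -(Real.pi * (-(s - t)) / 4 ^ (l + 1) / 2) by ring,
        Real.sin_neg, mul_neg, norm_neg, Real.norm_of_nonneg (by positivity)]
  rw [e1]
  have h5 : 2 / Real.pi * (Real.pi * |s - t| / 4 ^ (l + 1) / 2) ≤
      Real.sin (Real.pi * |s - t| / 4 ^ (l + 1) / 2) := by
    apply Real.mul_le_sin (by positivity)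
    have : Real.pi * |s - t| / 4 ^ (l + 1) ≤ Real.pi := by
      rw [div_le_iff₀ h4]; exact mul_le_mul_of_nonneg_left h2.le hpi.le
    linarith
  have h6 : (1 / 4 : ℝ) ≤ 2 / Real.pi * (Real.pi * |s - t| / 4 ^ (l + 1) / 2) := by
    have : 2 / Real.pi * (Real.pi * |s - t| / 4 ^ (l + 1) / 2) = |s - t| / 4 ^ (l + 1) := by
      field_simp
    rw [this, le_div_iff₀ h4, pow_succ]; linarith
  have h7 : (0 : ℝ) < 2 ^ l := by positivity
  nlinarith

/-- The snowflake map, with scales below `L`. -/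
noncomputable def f (L : ℕ) (t : ℝ) : EuclideanSpace ℂ (Fin 6) :=
  WithLp.toLp 2 fun r => ∑ l ∈ (range L).filter (fun l => l % 6 = (r : ℕ)), w l t

theorem f_sub (L : ℕ) (s t : ℝ) (r : Fin 6) : (f L s - f L t) r =
    ∑ l ∈ (range L).filter (fun l => l % 6 = (r : ℕ)), (w l s - w l t) := by
  simp [f, Finset.sum_sub_distrib]

theorem geo_low (m : ℕ) : ∑ l ∈ range m, (2 : ℝ) * 2 ^ l ≤ 2 * 2 ^ m := by
  rw [← Finset.mul_sum, geom_sum_eq (by norm_num)]
  have : (0 : ℝ) < 2 ^ m := by positivity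
  linarith

theorem geo_high (m L : ℕ) : ∑ l ∈ Ico m L, ((1 : ℝ) / 2) ^ l ≤ 2 * (1 / 2) ^ m := by
  rw [Finset.sum_Ico_eq_sum_range]
  simp_rw [pow_add]
  rw [← Finset.mul_sum, geom_sum_eq (by norm_num)]
  have h1 : (0 : ℝ) < (1 / 2) ^ m := by positivity
  have h2 : (0 : ℝ) < (1 / 2) ^ (L - m) := by positivity
  have h3 : ((1 / 2 : ℝ) ^ (L - m) - 1) / (1 / 2 - 1) = 2 * (1 - (1 / 2) ^ (L - m)) := by ring
  rw [h3]
  nlinarith

theorem f_upper (L k : ℕ) (s t : ℝ) (h2 : |s - t| < 4 ^ (k + 1))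
    (r : Fin 6) : ‖(f L s - f L t) r‖ ≤ 8 * 2 ^ k := by
  rw [f_sub]
  have hpi : Real.pi < 4 := by linarith [Real.pi_lt_d2]
  calc _ ≤ ∑ l ∈ (range L).filter (fun l => l % 6 = (r : ℕ)), ‖w l s - w l t‖ := norm_sum_le _ _
    _ ≤ ∑ l ∈ range L, ‖w l s - w l t‖ :=
      Finset.sum_le_sum_of_subset_of_nonneg (Finset.filter_subset _ _) fun _ _ _ => norm_nonneg _
    _ ≤ ∑ l ∈ range (k + 1) ∪ Ico (k + 1) L, ‖w l s - w l t‖ := by
      apply Finset.sum_le_sum_of_subset_of_nonneg _ fun _ _ _ => norm_nonneg _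
      intro l hl
      simp only [Finset.mem_union, Finset.mem_range, Finset.mem_Ico] at hl ⊢
      omega
    _ = ∑ l ∈ range (k + 1), ‖w l s - w l t‖ + ∑ l ∈ Ico (k + 1) L, ‖w l s - w l t‖ := by
      apply Finset.sum_union
      rw [Finset.disjoint_left]
      intro l hl hl'
      simp only [Finset.mem_range, Finset.mem_Ico] at hl hl'
      omega
    _ ≤ ∑ l ∈ range (k + 1), 2 * 2 ^ l +
        ∑ l ∈ Ico (k + 1) L, Real.pi * |s - t| / 4 * (1 / 2) ^ l :=
      add_le_add (Finset.sum_le_sum fun l _ => w_le_two l s t)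
        (Finset.sum_le_sum fun l _ => w_le_lin l s t)
    _ ≤ 2 * 2 ^ (k + 1) + Real.pi * |s - t| / 4 * (2 * (1 / 2) ^ (k + 1)) := by
      rw [← Finset.mul_sum (s := Ico (k + 1) L)]
      have h0 : 0 ≤ Real.pi * |s - t| / 4 := by positivity
      exact add_le_add (geo_low _) (mul_le_mul_of_nonneg_left (geo_high _ _) h0)
    _ ≤ 8 * 2 ^ k := by
      have e1 : Real.pi * |s - t| / 4 * (2 * (1 / 2) ^ (k + 1)) ≤ 4 * 2 ^ k := by
        have e2 : |s - t| * (1 / 2) ^ (k + 1) ≤ 2 * 2 ^ k := by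
          calc |s - t| * (1 / 2) ^ (k + 1) ≤ 4 ^ (k + 1) * (1 / 2) ^ (k + 1) :=
                mul_le_mul_of_nonneg_right h2.le (by positivity)
            _ = 2 * 2 ^ k := by rw [← mul_pow, pow_succ]; norm_num; ring
        have e3 : (0 : ℝ) < 2 ^ k := by positivity
        have e4 : 0 ≤ |s - t| * (1 / 2) ^ (k + 1) := by positivity
        nlinarith [Real.pi_pos]
      have e5 : (2 : ℝ) ^ (k + 1) = 2 * 2 ^ k := by ring
      linarith

theorem f_lower (L k : ℕ) (hk : k < L) (s t : ℝ) (h1 : 4 ^ k ≤ |s - t|)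
    (h2 : |s - t| < 4 ^ (k + 1)) :
    2 ^ k / 4 ≤ ‖(f L s - f L t) ⟨k % 6, Nat.mod_lt _ (by norm_num)⟩‖ := by
  rw [f_sub]
  set T := (range L).filter (fun l => l % 6 = k % 6) with hT
  have hkT : k ∈ T := by simp [hT, hk]
  have hsplit := Finset.add_sum_erase T (fun l => w l s - w l t) hkT
  change 2 ^ k / 4 ≤ ‖∑ l ∈ T, (w l s - w l t)‖
  rw [← hsplit]
  have hpi : Real.pi < 4 := by linarith [Real.pi_lt_d2]
  have hrest : ‖∑ l ∈ T.erase k, (w l s - w l t)‖ ≤ 2 ^ k / 4 := by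
    calc _ ≤ ∑ l ∈ T.erase k, ‖w l s - w l t‖ := norm_sum_le _ _
      _ ≤ ∑ l ∈ (range k).filter (fun l => l + 6 ≤ k) ∪ Ico (k + 6) L, ‖w l s - w l t‖ := by
        apply Finset.sum_le_sum_of_subset_of_nonneg _ fun _ _ _ => norm_nonneg _
        intro l hl
        simp only [hT, Finset.mem_erase, Finset.mem_filter, Finset.mem_union, Finset.mem_range,
          Finset.mem_Ico] at hl ⊢
        omega
      _ = ∑ l ∈ (range k).filter (fun l => l + 6 ≤ k), ‖w l s - w l t‖ +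
          ∑ l ∈ Ico (k + 6) L, ‖w l s - w l t‖ := by
        apply Finset.sum_union
        rw [Finset.disjoint_left]
        intro l hl hl'
        simp only [Finset.mem_filter, Finset.mem_range, Finset.mem_Ico] at hl hl'
        omega
      _ ≤ 2 ^ k / 16 + 2 ^ k / 8 := by
        apply add_le_add
        · rcases Nat.lt_or_ge k 6 with h | h
          · rw [Finset.filter_false_of_mem (fun l _ => by omega), Finset.sum_empty]
            positivity
          · calc _ ≤ ∑ l ∈ (range k).filter (fun l => l + 6 ≤ k), (2 : ℝ) * 2 ^ l :=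
                  Finset.sum_le_sum fun l _ => w_le_two l s t
              _ ≤ ∑ l ∈ range (k - 5), (2 : ℝ) * 2 ^ l := by
                  apply Finset.sum_le_sum_of_subset_of_nonneg _ fun _ _ _ => by positivity
                  intro l hl
                  simp only [Finset.mem_filter, Finset.mem_range] at hl ⊢
                  omega
              _ ≤ 2 * 2 ^ (k - 5) := geo_low _
              _ ≤ 2 ^ k / 16 := by
                  obtain ⟨j, rfl⟩ := Nat.exists_eq_add_of_le h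
                  have e1 : (2 : ℝ) ^ (6 + j) = 64 * 2 ^ j := by rw [pow_add]; norm_num
                  have e2 : (2 : ℝ) ^ (6 + j - 5) = 2 * 2 ^ j := by
                    rw [show 6 + j - 5 = j + 1 by omega, pow_succ]; ring
                  rw [e1, e2]
                  linarith
        · calc _ ≤ ∑ l ∈ Ico (k + 6) L, Real.pi * |s - t| / 4 * (1 / 2) ^ l :=
                Finset.sum_le_sum fun l _ => w_le_lin l s t
            _ ≤ Real.pi * |s - t| / 4 * (2 * (1 / 2) ^ (k + 6)) := by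
                have h0 : 0 ≤ Real.pi * |s - t| / 4 := by positivity
                rw [← Finset.mul_sum]
                exact mul_le_mul_of_nonneg_left (geo_high _ _) h0
            _ ≤ 2 ^ k / 8 := by
                have e2 : |s - t| * (1 / 2) ^ (k + 6) ≤ 2 ^ k / 16 := by
                  calc |s - t| * (1 / 2) ^ (k + 6) ≤ 4 ^ (k + 1) * (1 / 2) ^ (k + 6) :=
                        mul_le_mul_of_nonneg_right h2.le (by positivity)
                    _ = 2 ^ k / 16 := by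
                      rw [show k + 6 = (k + 1) + 5 by ring, pow_add (1 / 2 : ℝ), ← mul_assoc,
                        ← mul_pow, pow_succ]
                      norm_num; ring
                have e3 : (0 : ℝ) < 2 ^ k := by positivity
                have e4 : 0 ≤ |s - t| * (1 / 2) ^ (k + 6) := by positivity
                nlinarith [Real.pi_pos]
      _ ≤ 2 ^ k / 4 := by
        have e3 : (0 : ℝ) < 2 ^ k := by positivity
        linarith
  have hmain := le_w k s t h1 h2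
  have := norm_sub_le_norm_add (w k s - w k t) (∑ l ∈ T.erase k, (w l s - w l t))
  linarith

/-! ### The normed space and the points -/

/-- The normed space: `(a, b)` has norm `√(‖a‖_∞² + |b|²)`, where `a ∈ ℝ^m` and `b ∈ (ℂ^6)^m`. -/
abbrev V (m : ℕ) : Type := WithLp 2 ((Fin m → ℝ) × PiLp 2 (fun _ : Fin m => EuclideanSpace ℂ (Fin 6)))

/-- The point of the configuration attached to `a ∈ ℤ^m`. -/
noncomputable def P (m L : ℕ) (a : Fin m → ℕ) : V m :=
  WithLp.toLp 2 ((fun j => (a j : ℝ)), WithLp.toLp 2 fun j => (1 / (20 * m) : ℝ) • f L (a j))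

theorem f_norm_upper (L : ℕ) (s t : ℕ) (A : ℝ) (hA : |(s : ℝ) - t| ≤ A) :
    ‖f L s - f L t‖ ^ 2 ≤ 384 * A := by
  rcases eq_or_ne s t with rfl | hst
  · simp at hA ⊢; linarith
  obtain ⟨D, hD⟩ : ∃ D : ℕ, (D : ℝ) = |(s : ℝ) - t| :=
    ⟨((s : ℤ) - t).natAbs, by rw [Nat.cast_natAbs]; push_cast; rfl⟩
  have hD0 : D ≠ 0 := by
    rintro rfl
    have : (s : ℝ) - t = 0 := abs_eq_zero.1 (by rw [← hD]; simp)
    exact hst (by exact_mod_cast sub_eq_zero.1 this)
  have h1 : (4 : ℝ) ^ Nat.log 4 D ≤ |(s : ℝ) - t| := by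
    rw [← hD]; exact_mod_cast Nat.pow_log_le_self 4 hD0
  have h2 : |(s : ℝ) - t| < 4 ^ (Nat.log 4 D + 1) := by
    rw [← hD]; exact_mod_cast Nat.lt_pow_succ_log_self (by norm_num) D
  rw [EuclideanSpace.norm_sq_eq]
  calc _ ≤ ∑ _r : Fin 6, (8 * 2 ^ Nat.log 4 D : ℝ) ^ 2 :=
        Finset.sum_le_sum fun r _ => pow_le_pow_left₀ (norm_nonneg _) (f_upper L _ s t h2 r) 2
    _ = 384 * 4 ^ Nat.log 4 D := by
        rw [Finset.sum_const, Finset.card_univ, Fintype.card_fin, mul_pow, ← pow_mul, mul_comm _ 2,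
          pow_mul]
        norm_num; ring
    _ ≤ 384 * A := by linarith

theorem f_norm_lower (L : ℕ) (s t D : ℕ) (hD : (D : ℝ) = |(s : ℝ) - t|) (hD0 : D ≠ 0)
    (hL : D < 4 ^ L) : (D : ℝ) / 64 ≤ ‖f L s - f L t‖ ^ 2 := by
  have h1 : (4 : ℝ) ^ Nat.log 4 D ≤ |(s : ℝ) - t| := by
    rw [← hD]; exact_mod_cast Nat.pow_log_le_self 4 hD0
  have h2 : |(s : ℝ) - t| < 4 ^ (Nat.log 4 D + 1) := by
    rw [← hD]; exact_mod_cast Nat.lt_pow_succ_log_self (by norm_num) D
  have h3 : Nat.log 4 D < L := Nat.log_lt_of_lt_pow hD0 hL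
  have h4 := f_lower L _ h3 s t h1 h2
  rw [EuclideanSpace.norm_sq_eq]
  calc (D : ℝ) / 64 ≤ (2 ^ Nat.log 4 D / 4) ^ 2 := by
        rw [div_pow, ← pow_mul, mul_comm _ 2, pow_mul]
        rw [← hD, pow_succ] at h2
        norm_num
        linarith
    _ ≤ _ := pow_le_pow_left₀ (by positivity) h4 2
    _ ≤ _ := Finset.single_le_sum (f := fun r => ‖(f L s - f L t) r‖ ^ 2)
        (fun r _ => by positivity) (Finset.mem_univ _)

theorem P_dist (m L : ℕ) (hm : 0 < m) (a b : Fin m → ℕ) (hab : a ≠ b)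
    (n : ℕ) (ha : ∀ j, a j < n) (hb : ∀ j, b j < n) (hn : n ≤ 4 ^ L) :
    ∃ (D : ℕ) (S : ℝ), 1 ≤ D ∧ D < n ∧ 1 / (25600 * m ^ 2) * D ≤ S ∧ S ≤ D ∧
      ‖P m L a - P m L b‖ = √((D : ℝ) ^ 2 + S) := by
  have : Nonempty (Fin m) := ⟨⟨0, hm⟩⟩
  have hm' : (1 : ℝ) ≤ m := by exact_mod_cast hm
  obtain ⟨j0, -, hj0⟩ := Finset.exists_max_image (Finset.univ : Finset (Fin m))
    (fun j => ((a j : ℤ) - b j).natAbs) Finset.univ_nonempty
  set D : ℕ := ((a j0 : ℤ) - b j0).natAbs with hDdef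
  have hDr : (D : ℝ) = |(a j0 : ℝ) - b j0| := by
    rw [hDdef, Nat.cast_natAbs]; push_cast; rfl
  have hall : ∀ j, |(a j : ℝ) - b j| ≤ D := by
    intro j
    have h : ((((a j : ℤ) - b j).natAbs : ℕ) : ℝ) ≤ D := by exact_mod_cast hj0 j (Finset.mem_univ _)
    rwa [Nat.cast_natAbs, Int.cast_abs, Int.cast_sub, Int.cast_natCast, Int.cast_natCast] at h
  have hD1 : 1 ≤ D := by
    rw [Nat.one_le_iff_ne_zero]
    intro h0
    apply hab
    funext j
    have h := hall j
    rw [h0, Nat.cast_zero] at h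
    have h' : (a j : ℝ) - b j = 0 := abs_nonpos_iff.1 h
    exact_mod_cast sub_eq_zero.1 h'
  have hDn : D < n := by
    have := ha j0
    have := hb j0
    omega
  refine ⟨D, ‖(P m L a - P m L b).snd‖ ^ 2, hD1, hDn, ?_, ?_, ?_⟩
  · rw [PiLp.norm_sq_eq_of_L2]
    calc 1 / (25600 * (m : ℝ) ^ 2) * D = (1 / (20 * m)) ^ 2 * (D / 64) := by field_simp; norm_num
      _ ≤ (1 / (20 * m)) ^ 2 * ‖f L (a j0) - f L (b j0)‖ ^ 2 :=
        mul_le_mul_of_nonneg_left (f_norm_lower L _ _ D hDr (by omega) (by omega)) (by positivity)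
      _ = ‖(P m L a - P m L b).snd j0‖ ^ 2 := by
        have : (P m L a - P m L b).snd j0 = (1 / (20 * m) : ℝ) • (f L (a j0) - f L (b j0)) := by
          rw [smul_sub]; rfl
        rw [this, norm_smul, mul_pow, Real.norm_of_nonneg (by positivity)]
      _ ≤ _ := Finset.single_le_sum (f := fun j => ‖(P m L a - P m L b).snd j‖ ^ 2)
        (fun r _ => by positivity) (Finset.mem_univ _)
  · rw [PiLp.norm_sq_eq_of_L2]
    calc ∑ j, ‖(P m L a - P m L b).snd j‖ ^ 2
        ≤ ∑ _j : Fin m, (1 / (20 * (m : ℝ))) ^ 2 * (384 * (D : ℝ)) := by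
          apply Finset.sum_le_sum
          intro j _
          have : (P m L a - P m L b).snd j = (1 / (20 * m) : ℝ) • (f L (a j) - f L (b j)) := by
            rw [smul_sub]; rfl
          rw [this, norm_smul, mul_pow, Real.norm_of_nonneg (by positivity)]
          exact mul_le_mul_of_nonneg_left (f_norm_upper L _ _ _ (hall j)) (by positivity)
      _ = 384 / 400 * ((D : ℝ) / m) := by
          rw [Finset.sum_const, Finset.card_univ, Fintype.card_fin, nsmul_eq_mul]
          field_simp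
          norm_num
      _ ≤ D := by
          have h1 : (D : ℝ) / m ≤ D := div_le_self (by positivity) hm'
          have h2 : (0 : ℝ) ≤ D / m := by positivity
          linarith
  · rw [WithLp.prod_norm_eq_of_L2]
    congr 2
    congr 1
    apply le_antisymm
    · rw [pi_norm_le_iff_of_nonneg (by positivity)]
      intro j
      exact hall j
    · rw [hDr]
      exact norm_le_pi_norm (P m L a - P m L b).fst j0

theorem frac_bound (D : ℕ) (hD : 1 ≤ D) (S c : ℝ) (hc : 0 < c) (hc1 : c ≤ 1) (h1 : c * D ≤ S)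
    (h2 : S ≤ D) : c / 3 ≤ |√((D : ℝ) ^ 2 + S) - round √((D : ℝ) ^ 2 + S)| ∧
      √((D : ℝ) ^ 2 + S) ≤ D + 1 / 2 := by
  have hD' : (1 : ℝ) ≤ D := by exact_mod_cast hD
  have hS : 0 ≤ S := le_trans (by positivity) h1
  have hup : √((D : ℝ) ^ 2 + S) ≤ D + 1 / 2 := by
    rw [Real.sqrt_le_left (by positivity)]; nlinarith
  have hlo : D + c / 3 ≤ √((D : ℝ) ^ 2 + S) := by
    apply Real.le_sqrt_of_sq_le
    nlinarith
  refine ⟨?_, hup⟩
  generalize round √((D : ℝ) ^ 2 + S) = z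
  generalize √((D : ℝ) ^ 2 + S) = v at *
  rcases le_or_gt z D with h | h
  · have : (z : ℝ) ≤ D := by exact_mod_cast h
    exact le_trans (by linarith) (le_abs_self _)
  · have : (D : ℝ) + 1 ≤ z := by exact_mod_cast h
    rw [abs_sub_comm]
    exact le_trans (by linarith) (le_abs_self _)

/-! ### Boundedness of the number of points -/

theorem bdd {d : ℕ} {E : Type*} [NormedAddCommGroup E] [NormedSpace ℝ E] [FiniteDimensional ℝ E]
    (e : (Fin d → ℝ) ≃ₗ[ℝ] E) (𝒩 : Seminorm ℝ (Fin d → ℝ)) (h𝒩 : ∀ x, 𝒩 x = ‖e x‖) (X δ : ℝ)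
    (hδ : 0 < δ) :
    BddAbove {n : ℕ | ∃ (c : Fin d → ℝ) (p : Fin n → (Fin d → ℝ)), (∀ i, 𝒩 (p i - c) ≤ X) ∧
      ∀ i j, i ≠ j → δ ≤ |𝒩 (p i - p j) - round (𝒩 (p i - p j))|} := by
  have : ProperSpace E := FiniteDimensional.proper ℝ E
  obtain ⟨t, ht, hcov⟩ := Metric.totallyBounded_iff.1
    (isCompact_closedBall (0 : E) X).totallyBounded (δ / 2) (by positivity)
  refine ⟨ht.toFinset.card, ?_⟩
  rintro n ⟨c, p, hp, hs⟩
  have hmem : ∀ i, ∃ y ∈ t, dist (e (p i - c)) y < δ / 2 := by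
    intro i
    have h1 : e (p i - c) ∈ Metric.closedBall (0 : E) X := by
      rw [mem_closedBall_zero_iff, ← h𝒩]; exact hp i
    have h2 := hcov h1
    simpa using h2
  choose y hy hy' using hmem
  have hinj : Function.Injective y := by
    intro i j hij
    by_contra hne
    have h1 := hs i j hne
    have h2 : |𝒩 (p i - p j) - round (𝒩 (p i - p j))| ≤ |𝒩 (p i - p j) - (0 : ℤ)| := round_le _ _
    rw [Int.cast_zero, sub_zero, abs_of_nonneg (apply_nonneg _ _)] at h2
    have h3 : 𝒩 (p i - p j) = dist (e (p i - c)) (e (p j - c)) := by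
      rw [h𝒩, dist_eq_norm, ← map_sub]; congr 2; abel
    have h4 : dist (e (p i - c)) (e (p j - c)) < δ := by
      calc _ ≤ dist (e (p i - c)) (y i) + dist (y i) (e (p j - c)) := dist_triangle _ _ _
        _ < δ / 2 + δ / 2 := by
          apply add_lt_add (hy' i)
          rw [hij, dist_comm]; exact hy' j
        _ = δ := by ring
    linarith
  calc n = (Finset.univ : Finset (Fin n)).card := by simp
    _ ≤ _ := Finset.card_le_card_of_injOn y (fun i _ => by simpa using hy i) hinj.injOn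

/-- For every `k` there are a dimension `d`, a `δ ∈ (0, 1/2)` and a norm on `ℝ^d` such that
`N(X, δ) / X^k → ∞` as `X → ∞`. -/
theorem result : ∀ k : ℕ, ∃ (d : ℕ) (δ : ℝ) (𝒩 : Seminorm ℝ (Fin d → ℝ)),
    1 ≤ d ∧ 0 < δ ∧ δ < 1 / 2 ∧ (∀ x, 𝒩 x = 0 → x = 0) ∧
    Tendsto (fun X : ℝ => (N 𝒩 X δ : ℝ) / X ^ k) atTop atTop := by
  intro k
  set m := k + 1 with hm
  have hm1 : (1 : ℝ) ≤ m := by rw [hm]; push_cast; linarith [(Nat.cast_nonneg k : (0 : ℝ) ≤ k)]
  set d := Module.finrank ℝ (V m) with hd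
  set e : (Fin d → ℝ) ≃ₗ[ℝ] V m := (Module.finBasis ℝ (V m)).equivFun.symm with he
  set 𝒩 : Seminorm ℝ (Fin d → ℝ) := (normSeminorm ℝ (V m)).comp e.toLinearMap with h𝒩
  have hN : ∀ x, 𝒩 x = ‖e x‖ := fun x => rfl
  set c : ℝ := 1 / (25600 * (m : ℝ) ^ 2) with hc
  have hc0 : 0 < c := by positivity
  have hc1 : c ≤ 1 := by
    rw [hc, div_le_one (by positivity)]; nlinarith
  refine ⟨d, c / 3, 𝒩, ?_, by positivity, by linarith, ?_, ?_⟩
  · rw [hd]
    have : Nontrivial (V m) := by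
      refine ⟨P m 1 (fun _ => 0), P m 1 (fun _ => 1), ?_⟩
      intro h
      have := congrArg (fun x : V m => x.fst ⟨0, by omega⟩) h
      simp [P] at this
    exact Module.finrank_pos
  · intro x hx
    rw [hN, norm_eq_zero] at hx
    exact (LinearEquiv.map_eq_zero_iff e).1 hx
  · have hkey : ∀ X : ℝ, 1 ≤ X → ⌊X⌋₊ ^ m ≤ N 𝒩 X (c / 3) := by
      intro X hX
      set n := ⌊X⌋₊ with hn
      have hn1 : 1 ≤ n := Nat.le_floor (by simpa using hX)
      have hnX : (n : ℝ) ≤ X := Nat.floor_le (by linarith)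
      unfold N
      apply le_csSup (bdd e 𝒩 hN X (c / 3) (by positivity))
      have hcard : Fintype.card (Fin m → Fin n) = n ^ m := by simp
      let E : (Fin m → Fin n) ≃ Fin (n ^ m) := Fintype.equivFinOfCardEq hcard
      let a : Fin (n ^ m) → Fin m → ℕ := fun i j => (E.symm i j : ℕ)
      have ha : ∀ i j, a i j < n := fun i j => (E.symm i j).2
      have hainj : Function.Injective a := by
        intro i i' h
        apply E.symm.injective
        funext j
        exact Fin.ext (congrFun h j)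
      have hnL : n ≤ 4 ^ n := (Nat.lt_pow_self (by norm_num)).le
      refine ⟨e.symm (P m n 0), fun i => e.symm (P m n (a i)), ?_, ?_⟩
      · intro i
        rw [hN, ← map_sub, LinearEquiv.apply_symm_apply]
        rcases eq_or_ne (a i) 0 with h | h
        · rw [h, sub_self, norm_zero]; linarith
        · obtain ⟨D, S, hD1, hDn, h1, h2, h3⟩ := P_dist m n (by omega) (a i) 0 h n (ha i)
            (fun j => lt_of_lt_of_le zero_lt_one hn1) hnL
          rw [h3]
          have h4 := (frac_bound D hD1 S c hc0 hc1 h1 h2).2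
          have h5 : (D : ℝ) + 1 ≤ n := by exact_mod_cast hDn
          linarith
      · intro i j hij
        rw [hN, ← map_sub, LinearEquiv.apply_symm_apply]
        obtain ⟨D, S, hD1, hDn, h1, h2, h3⟩ := P_dist m n (by omega) (a i) (a j)
          (fun h => hij (hainj h)) n (ha i) (ha j) hnL
        rw [h3]
        exact (frac_bound D hD1 S c hc0 hc1 h1 h2).1
    have hlow : ∀ᶠ X : ℝ in atTop, X * (1 / 2 ^ m) ≤ (N 𝒩 X (c / 3) : ℝ) / X ^ k := by
      filter_upwards [eventually_ge_atTop (2 : ℝ)] with X hX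
      have h1 : ((⌊X⌋₊ ^ m : ℕ) : ℝ) ≤ N 𝒩 X (c / 3) := by
        exact_mod_cast hkey X (by linarith)
      have h2 : X / 2 ≤ ⌊X⌋₊ := by
        have := Nat.lt_floor_add_one X
        linarith
      rw [le_div_iff₀ (by positivity)]
      calc X * (1 / 2 ^ m) * X ^ k = (X / 2) ^ m := by rw [div_pow, hm, pow_succ X]; ring
        _ ≤ (⌊X⌋₊ : ℝ) ^ m := pow_le_pow_left₀ (by linarith) h2 m
        _ ≤ _ := by rw [← Nat.cast_pow]; exact h1
    exact tendsto_atTop_mono' _ hlow (tendsto_id.atTop_mul_const (by positivity))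

end Pool.Agent.Results.MP_af7c6a_co.Superlinear
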